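import Pool.Agent.helper82.VD.SpecH

/-!
# Project VD (MP_07c750_an), block B3, row MSC: the measure of flow boxes
-/

set_option autoImplicit false

open MeasureTheory Filter Set Topology Pool.Agent.VDE Pool.Agent.VD
open scoped ENNReal

namespace Pool.Agent.VDG

noncomputable section

/-- the points near a compact set have a compact set of base points -/
theorem MSC_near {d : ℕ} (K : Set (V d)) (hK : IsCompact K) (r1 : ℝ) :
    ∃ L : Set (V d), IsCompact L ∧ ∀ p : P d, Nr K r1 p → p.1 ∈ L := by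
  refine ⟨Metric.cthickening r1 K, hK.cthickening, ?_⟩
  rintro p ⟨k, hk, hp⟩
  refine Metric.mem_cthickening_of_dist_le p.1 k r1 K hk ?_
  rw [dist_eq_norm]; exact hp

/-- the image of the product box under `Psi` -/
theorem MSC_image {m : ℕ} (G : V (m + 1) → V (m + 1) →L[ℝ] V (m + 1)) (Φ : ℝ → P (m + 1) → P (m + 1)) (κ : EE m → P (m + 1)) (A : Set (EE m)) (r : ℝ)
    (hhom : ∀ (x ξ : V (m + 1)) (l : ℝ), nrm G ((x, l • ξ) : P (m + 1)) = |l| * nrm G (x, ξ))
    (h1 : ∀ a ∈ A, ∀ s : ℝ, |s| ≤ r → nrm G (Φ s (κ a)) = 1) :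
    Psi Φ κ '' (A ×ˢ (Icc (-r) r ×ˢ Ioc (1 : ℝ) 2)) = {p | 1 < nrm G p ∧ nrm G p ≤ 2 ∧ dir G p ∈ bxP Φ κ A r} := by
  ext p
  constructor
  · rintro ⟨⟨a, s, l⟩, ⟨ha, hs, hl⟩, rfl⟩
    simp only [mem_Icc, mem_Ioc] at hs hl ha
    have hs' : |s| ≤ r := abs_le.2 hs
    have hn : nrm G (Psi Φ κ (a, s, l)) = l := by
      unfold Psi
      simp only
      rw [hhom, abs_of_pos (by linarith)]
      have h2 : nrm G ((Φ s (κ a)).1, (Φ s (κ a)).2) = 1 := h1 a ha s hs'
      rw [h2, mul_one]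
    refine ⟨by rw [hn]; exact hl.1, by rw [hn]; exact hl.2, a, ha, s, hs', ?_⟩
    unfold dir
    rw [hn]
    unfold Psi
    simp only
    rw [smul_smul, inv_mul_cancel₀ (by linarith : (0 : ℝ) < l).ne', one_smul]
  · rintro ⟨h2, h3, a, ha, s, hs, h4⟩
    refine ⟨(a, s, nrm G p), ⟨ha, abs_le.1 hs, h2, h3⟩, ?_⟩
    unfold Psi
    simp only
    rw [← h4]
    unfold dir
    simp only
    rw [smul_smul, mul_inv_cancel₀ (by linarith : (0 : ℝ) < nrm G p).ne', one_smul]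

/-- the flow box is measurable -/
theorem MSC_meas {m : ℕ} (Φ : ℝ → P (m + 1) → P (m + 1)) (κ : EE m → P (m + 1)) (A : Set (EE m)) (r e L : ℝ)
    (hA : A ⊆ Metric.closedBall 0 e) (hAm : MeasurableSet A) (hre : r ≤ e) (hL : 0 ≤ L)
    (hb : ∀ q q' : EE m × ℝ × ℝ, ‖q.1‖ ≤ e → ‖q'.1‖ ≤ e → |q.2.1| ≤ e → |q'.2.1| ≤ e → q.2.2 ∈ Icc (1 : ℝ) 2 → q'.2.2 ∈ Icc (1 : ℝ) 2 → ‖Psi Φ κ q - Psi Φ κ q'‖ ≤ L * ‖q - q'‖ ∧ ‖q - q'‖ ≤ L * ‖Psi Φ κ q - Psi Φ κ q'‖) :
    MeasurableSet (bxP Φ κ A r) := by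
  set f : EE m × ℝ → P (m + 1) := fun q => Φ q.2 (κ q.1) with hf
  have hfp : ∀ q : EE m × ℝ, f q = Psi Φ κ (q.1, q.2, 1) := by
    intro q
    rw [hf]; unfold Psi; simp only [one_smul]
  have himg : bxP Φ κ A r = f '' (A ×ˢ Icc (-r) r) := by
    ext p
    constructor
    · rintro ⟨a, ha, s, hs, rfl⟩
      exact ⟨(a, s), ⟨ha, abs_le.1 hs⟩, rfl⟩
    · rintro ⟨⟨a, s⟩, ⟨ha, hs⟩, rfl⟩
      exact ⟨a, ha, s, abs_le.2 hs, rfl⟩
  have hin : ∀ q ∈ A ×ˢ Icc (-r) r, ‖q.1‖ ≤ e ∧ |q.2| ≤ e := by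
    rintro ⟨a, s⟩ ⟨ha, hs⟩
    refine ⟨?_, (abs_le.2 hs).trans hre⟩
    have := hA ha
    rwa [Metric.mem_closedBall, dist_zero_right] at this
  have hbi : ∀ q ∈ A ×ˢ Icc (-r) r, ∀ q' ∈ A ×ˢ Icc (-r) r, ‖f q - f q'‖ ≤ L * ‖q - q'‖ ∧ ‖q - q'‖ ≤ L * ‖f q - f q'‖ := by
    intro q hq q' hq'
    have h1 := hb (q.1, q.2, 1) (q'.1, q'.2, 1) (hin q hq).1 (hin q' hq').1 (hin q hq).2 (hin q' hq').2 ⟨le_refl _, by norm_num⟩ ⟨le_refl _, by norm_num⟩
    have h2 : ‖((q.1, q.2, 1) : EE m × ℝ × ℝ) - (q'.1, q'.2, 1)‖ = ‖q - q'‖ := by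
      simp only [Prod.mk_sub_mk, sub_self, Prod.norm_def, norm_zero, Prod.fst_sub, Prod.snd_sub]
      rw [max_eq_left (norm_nonneg (q.2 - q'.2))]
    rw [h2, ← hfp, ← hfp] at h1
    exact h1
  rw [himg]
  refine MeasurableSet.image_of_continuousOn_injOn (hAm.prod measurableSet_Icc) ?_ ?_
  · have hlip : LipschitzOnWith (Real.toNNReal L) f (A ×ˢ Icc (-r) r) := by
      refine LipschitzOnWith.of_dist_le_mul fun q hq q' hq' => ?_
      rw [dist_eq_norm, dist_eq_norm, Real.coe_toNNReal _ hL]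
      exact (hbi q hq q' hq').1
    exact hlip.continuousOn
  · intro q hq q' hq' h
    have h3 := (hbi q hq q' hq').2
    rw [h, sub_self, norm_zero, mul_zero] at h3
    exact sub_eq_zero.1 (norm_le_zero_iff.1 h3)

theorem MSC_proof (hVLP : VLP_stmt) (hPSB : PSB_stmt) (hSNM : SNM_stmt) (hSLF : SLF_stmt) (hSLP : SLP_stmt) (hSLI : SLI_stmt) : MSC_stmt := by
  intro m r1 c C e0 e1 hr1 hC he1
  obtain ⟨e, L, he, hee1, he1', hL, hP⟩ := hPSB m r1 C e1 hr1 hC he1
  have hfin : Module.finrank ℝ (EE m × ℝ × ℝ) = Module.finrank ℝ (P (m + 1)) := by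
    simp only [Module.finrank_prod, finrank_euclideanSpace_fin, Module.finrank_self]
    omega
  have iEE : (volume : Measure (EE m)).IsAddHaarMeasure :=
    (inferInstance : ((volume : Measure (EuclideanSpace ℝ (Fin m))).prod (volume : Measure (EuclideanSpace ℝ (Fin m)))).IsAddHaarMeasure)
  have iRR : (volume : Measure (ℝ × ℝ)).IsAddHaarMeasure :=
    (inferInstance : ((volume : Measure ℝ).prod (volume : Measure ℝ)).IsAddHaarMeasure)
  have sEE : SFinite (volume : Measure (EE m)) :=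
    (inferInstance : SFinite ((volume : Measure (EuclideanSpace ℝ (Fin m))).prod (volume : Measure (EuclideanSpace ℝ (Fin m)))))
  have sRR : SFinite (volume : Measure (ℝ × ℝ)) :=
    (inferInstance : SFinite ((volume : Measure ℝ).prod (volume : Measure ℝ)))
  have iE : (volume : Measure (EE m × ℝ × ℝ)).IsAddHaarMeasure :=
    (inferInstance : ((volume : Measure (EE m)).prod (volume : Measure (ℝ × ℝ))).IsAddHaarMeasure)
  have iP : (volume : Measure (P (m + 1))).IsAddHaarMeasure :=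
    (inferInstance : ((volume : Measure (V (m + 1))).prod (volume : Measure (V (m + 1)))).IsAddHaarMeasure)
  obtain ⟨k1, hk1, hV1⟩ := hVLP (EE m × ℝ × ℝ) (P (m + 1)) hfin
  obtain ⟨k2, hk2, hV2⟩ := hVLP (P (m + 1)) (EE m × ℝ × ℝ) hfin.symm
  set n1 := Module.finrank ℝ (EE m × ℝ × ℝ) with hn1
  set n2 := Module.finrank ℝ (P (m + 1)) with hn2
  set U : ℝ := 2 * k1 * L ^ n1 with hU
  set D : ℝ := k2 * L ^ n2 * 2 ^ (m + 1) with hD
  have hL0 : 0 ≤ L := by linarith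
  have hU0 : 0 ≤ U := by positivity
  have hD0 : 0 ≤ D := by positivity
  refine ⟨e, 1 + U + D, he, hee1, by linarith, ?_⟩
  intro Γ _ _ K F0 G Φ dd κ hG hS z A r hz hA hAm hr hre
  obtain ⟨γ, hγ⟩ := hG.fld.fdk.cover z.1
  obtain ⟨hncont, hn0, hhom, hdir, hcpt⟩ := hSNM (m + 1) G hG.fld.met
  set κ' : EE m → P (m + 1) := fun a => lft γ (κ z a) with hκ'
  have hzS : z ∈ {p : P (m + 1) | nrm G p = 1} := hz
  have h0 : (κ' 0).1 ∈ K := by
    have h1 : κ' 0 = lft γ z := by rw [hκ']; simp only; rw [hS.zero z hzS]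
    rw [h1]; exact hγ
  have hfe : ∀ (s : ℝ) (a : EE m), Φ s (κ' a) = lft γ (Φ s (κ z a)) := fun s a => hG.fld.fe γ s (κ z a)
  obtain ⟨hP1, hP2⟩ := hP Γ K F0 G Φ dd κ' hG h0
    (fun a ha => by
      have h1 : nrm G (lft γ (κ z a)) = nrm G (κ z a) := hG.fld.ln γ (κ z a)
      have h2 : nrm G (κ z a) = 1 := hS.mem z hzS a ha
      exact h1.trans h2)
    (fun a b ha hb => by
      have h1 : dd (lft γ (κ z a)) (lft γ (κ z b)) = dd (κ z a) (κ z b) := hG.fld.dis.inv γ _ _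
      exact h1.le.trans (hS.cmp z hzS a b ha hb))
    (fun a a' s s' ha ha' hs hs' => by
      have h1 := hS.inj z hzS a a' s s' ha ha' hs hs'
      rw [hfe, hfe, hG.fld.dis.inv γ]
      exact h1)
  have hAe : ∀ a ∈ A, ‖a‖ ≤ e := by
    intro a ha
    have := hA ha
    rwa [Metric.mem_closedBall, dist_zero_right] at this
  -- the box for `κ'`
  set B : Set (P (m + 1)) := bxP Φ κ' A r with hB
  have hBm : MeasurableSet B := MSC_meas Φ κ' A r e L hA hAm hre hL0 hP2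
  have hinj : ∀ p q : P (m + 1), lft γ p = lft γ q → p = q := by
    intro p q h
    have h1 : lft γ⁻¹ (lft γ p) = lft γ⁻¹ (lft γ q) := by rw [h]
    rw [← hG.fld.mul, ← hG.fld.mul, inv_mul_cancel, hG.fld.one, hG.fld.one] at h1
    exact h1
  have hpre : bxP Φ (κ z) A r = lft γ ⁻¹' B := by
    ext p
    constructor
    · rintro ⟨a, ha, s, hs, rfl⟩
      exact ⟨a, ha, s, hs, (hfe s a).symm⟩
    · rintro ⟨a, ha, s, hs, h⟩
      rw [hfe] at h
      exact ⟨a, ha, s, hs, hinj _ _ h⟩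
  have hmeas : MeasurableSet (bxP Φ (κ z) A r) := by
    rw [hpre]; exact (hG.fld.lc γ).measurable hBm
  have hliou : liou G (bxP Φ (κ z) A r) = liou G B := by
    rw [hpre]
    exact ((hSLI (m + 1) Γ K F0 G Φ C dd (by omega) hG.fld).2 γ).measure_preimage hBm.nullMeasurableSet
  -- finiteness
  obtain ⟨Lc, hLc, hLc'⟩ := MSC_near K hG.fld.fdk.compact r1
  have hfinB : liou G B < ⊤ := by
    refine lt_of_le_of_lt (measure_mono ?_) ((hSLP (m + 1) G hG.fld.met).2 Lc hLc)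
    rintro p ⟨a, ha, s, hs, rfl⟩
    exact hLc' _ (hP1 a s (hAe a ha) (hs.trans hre)).1
  -- the image of `Psi`
  set Q : Set (EE m × ℝ × ℝ) := A ×ˢ (Icc (-r) r ×ˢ Ioc (1 : ℝ) 2) with hQ
  have himg : Psi Φ κ' '' Q = {p | 1 < nrm G p ∧ nrm G p ≤ 2 ∧ dir G p ∈ B} :=
    MSC_image G Φ κ' A r hhom (fun a ha s hs => (hP1 a s (hAe a ha) (hs.trans hre)).2)
  have hvol : volume (Psi Φ κ' '' Q) = ENNReal.ofReal (2 ^ (m + 1) - 1 ^ (m + 1)) * liou G B := by
    rw [himg]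
    exact (hSLF (m + 1) G hG.fld.met).2.1 B 1 2 hBm (by norm_num) (by norm_num) hfinB
  have hvQ : volume Q = volume A * ENNReal.ofReal (2 * r) := by
    rw [hQ]
    have h1 : (volume : Measure (EE m × ℝ × ℝ)) = (volume : Measure (EE m)).prod ((volume : Measure ℝ).prod volume) := rfl
    rw [h1, Measure.prod_prod, Measure.prod_prod, Real.volume_Icc, Real.volume_Ioc]
    have h2 : r - -r = 2 * r := by ring
    have h3 : (2 : ℝ) - 1 = 1 := by norm_num
    rw [h2, h3, ENNReal.ofReal_one, mul_one]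
  have hQin : ∀ q ∈ Q, ‖q.1‖ ≤ e ∧ |q.2.1| ≤ e ∧ q.2.2 ∈ Icc (1 : ℝ) 2 := by
    rintro ⟨a, s, l⟩ ⟨ha, hs, hl⟩
    exact ⟨hAe a ha, (abs_le.2 hs).trans hre, hl.1.le, hl.2⟩
  have hup : volume (Psi Φ κ' '' Q) ≤ ENNReal.ofReal (k1 * L ^ n1) * volume Q := by
    refine hV1 (Psi Φ κ') Q L hL0 fun x hx y hy => ?_
    exact (hP2 x y (hQin x hx).1 (hQin y hy).1 (hQin x hx).2.1 (hQin y hy).2.1 (hQin x hx).2.2 (hQin y hy).2.2).1
  have hlo : volume Q ≤ ENNReal.ofReal (k2 * L ^ n2) * volume (Psi Φ κ' '' Q) := by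
    have hinjQ : InjOn (Psi Φ κ') Q := by
      intro q hq q' hq' h
      have h3 := (hP2 q q' (hQin q hq).1 (hQin q' hq').1 (hQin q hq).2.1 (hQin q' hq').2.1 (hQin q hq).2.2 (hQin q' hq').2.2).2
      rw [h, sub_self, norm_zero, mul_zero] at h3
      exact sub_eq_zero.1 (norm_le_zero_iff.1 h3)
    have hgi : Function.invFunOn (Psi Φ κ') Q '' (Psi Φ κ' '' Q) = Q := by
      rw [image_image]
      have h5 : ∀ q ∈ Q, Function.invFunOn (Psi Φ κ') Q (Psi Φ κ' q) = q := fun q hq => hinjQ.leftInvOn_invFunOn hq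
      ext q
      constructor
      · rintro ⟨q', hq', rfl⟩
        simp only
        rw [h5 q' hq']; exact hq'
      · intro hq
        exact ⟨q, hq, h5 q hq⟩
    have h6 := hV2 (Function.invFunOn (Psi Φ κ') Q) (Psi Φ κ' '' Q) L hL0 (by
      rintro _ ⟨x, hx, rfl⟩ _ ⟨y, hy, rfl⟩
      have hx' : Function.invFunOn (Psi Φ κ') Q (Psi Φ κ' x) = x := hinjQ.leftInvOn_invFunOn hx
      have hy' : Function.invFunOn (Psi Φ κ') Q (Psi Φ κ' y) = y := hinjQ.leftInvOn_invFunOn hy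
      rw [hx', hy']
      exact (hP2 x y (hQin x hx).1 (hQin y hy).1 (hQin x hx).2.1 (hQin y hy).2.1 (hQin x hx).2.2 (hQin y hy).2.2).2)
    rw [hgi] at h6
    exact h6
  refine ⟨hmeas, ?_, ?_⟩
  · -- upper bound
    rw [hliou]
    have h1 : liou G B ≤ volume (Psi Φ κ' '' Q) := by
      rw [hvol]
      have h2 : (1 : ℝ≥0∞) ≤ ENNReal.ofReal (2 ^ (m + 1) - 1 ^ (m + 1)) := by
        rw [← ENNReal.ofReal_one]
        refine ENNReal.ofReal_le_ofReal ?_
        have h3 : (2 : ℝ) ≤ 2 ^ (m + 1) := by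
          calc (2 : ℝ) = 2 ^ 1 := by norm_num
            _ ≤ 2 ^ (m + 1) := pow_le_pow_right₀ (by norm_num) (by omega)
        rw [one_pow]; linarith
      calc liou G B = 1 * liou G B := (one_mul _).symm
        _ ≤ _ := mul_le_mul_left h2 _
    refine h1.trans (hup.trans ?_)
    rw [hvQ]
    calc ENNReal.ofReal (k1 * L ^ n1) * (volume A * ENNReal.ofReal (2 * r))
        = (ENNReal.ofReal (k1 * L ^ n1) * ENNReal.ofReal (2 * r)) * volume A := by ring
      _ = ENNReal.ofReal (U * r) * volume A := by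
          rw [← ENNReal.ofReal_mul (by positivity)]
          congr 2
          rw [hU]; ring
      _ ≤ ENNReal.ofReal ((1 + U + D) * r) * volume A := by
          refine mul_le_mul_left (ENNReal.ofReal_le_ofReal ?_) _
          exact mul_le_mul_of_nonneg_right (by linarith) hr
  · -- lower bound
    rw [hliou]
    have hC' : (0 : ℝ) < 1 + U + D := by linarith
    have h1 : ENNReal.ofReal (2 * r) * volume A ≤ ENNReal.ofReal D * liou G B := by
      calc ENNReal.ofReal (2 * r) * volume A = volume Q := by rw [hvQ]; ring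
        _ ≤ ENNReal.ofReal (k2 * L ^ n2) * (ENNReal.ofReal (2 ^ (m + 1) - 1 ^ (m + 1)) * liou G B) := by
            rw [← hvol]; exact hlo
        _ = (ENNReal.ofReal (k2 * L ^ n2) * ENNReal.ofReal (2 ^ (m + 1) - 1 ^ (m + 1))) * liou G B := by ring
        _ ≤ ENNReal.ofReal D * liou G B := by
            refine mul_le_mul_left ?_ _
            rw [← ENNReal.ofReal_mul (by positivity)]
            refine ENNReal.ofReal_le_ofReal ?_
            rw [hD]
            refine mul_le_mul_of_nonneg_left ?_ (by positivity)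
            rw [one_pow]; linarith
    calc ENNReal.ofReal ((1 + U + D)⁻¹ * r) * volume A
        = ENNReal.ofReal ((1 + U + D)⁻¹ / 2) * (ENNReal.ofReal (2 * r) * volume A) := by
          rw [← mul_assoc, ← ENNReal.ofReal_mul (by positivity)]
          congr 2
          ring
      _ ≤ ENNReal.ofReal ((1 + U + D)⁻¹ / 2) * (ENNReal.ofReal D * liou G B) := mul_le_mul_right h1 _
      _ = ENNReal.ofReal ((1 + U + D)⁻¹ / 2 * D) * liou G B := by
          rw [← mul_assoc, ← ENNReal.ofReal_mul (by positivity)]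
      _ ≤ 1 * liou G B := by
          refine mul_le_mul_left ?_ _
          rw [← ENNReal.ofReal_one]
          refine ENNReal.ofReal_le_ofReal ?_
          rw [div_mul_eq_mul_div, div_le_one (by norm_num)]
          rw [inv_mul_le_iff₀ hC']
          linarith
      _ = liou G B := one_mul _

end

end Pool.Agent.VDG
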